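import Pool.Agent.W528.HA.Stm

/-!
# The estimate of the character sums
-/

set_option autoImplicit false

namespace Pool.Agent.W528.HA

open Finset Polynomial

section

variable {c : ℕ} [Fact c.Prime]

lemma norm_pow_one {x : PadicAlgCl c} {n : ℕ} (hn : n ≠ 0) (h : x ^ n = 1) : ‖x‖ = 1 := by
  have h1 : ‖x‖ ^ n = 1 := by rw [← norm_pow, h, norm_one]
  exact (pow_eq_one_iff_of_nonneg (norm_nonneg x) hn).mp h1

lemma norm_natCast_le (n : ℕ) : ‖(n : PadicAlgCl c)‖ ≤ 1 := by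
  have h : algebraMap ℚ_[c] (PadicAlgCl c) (n : ℚ_[c]) = (n : PadicAlgCl c) := map_natCast _ n
  rw [← h, PadicAlgCl.norm_extends]
  exact_mod_cast Padic.norm_int_le_one (n : ℤ)

lemma norm_card_lt {L : Type} [Field L] [Fintype L] [CharP L c] :
    ‖((Fintype.card L : ℕ) : PadicAlgCl c)‖ < 1 := by
  have h : algebraMap ℚ_[c] (PadicAlgCl c) ((Fintype.card L : ℕ) : ℚ_[c])
      = ((Fintype.card L : ℕ) : PadicAlgCl c) := map_natCast _ _
  rw [← h, PadicAlgCl.norm_extends]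
  rw [Padic.norm_natCast_lt_one_iff]
  exact (CharP.cast_eq_zero_iff L c (Fintype.card L)).mp (FiniteField.cast_card_eq_zero L)

lemma norm_card_pos {L : Type} [Field L] [Fintype L] :
    0 < ‖((Fintype.card L : ℕ) : PadicAlgCl c)‖ := by
  rw [norm_pos_iff]
  exact_mod_cast Fintype.card_ne_zero

lemma norm_card_sub_one {L : Type} [Field L] [Fintype L] [CharP L c] :
    ‖((Fintype.card L : ℕ) : PadicAlgCl c) - 1‖ = 1 := by
  have h1 := norm_card_lt (c := c) (L := L)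
  have h2 : ‖((Fintype.card L : ℕ) : PadicAlgCl c) - 1‖
      = max ‖((Fintype.card L : ℕ) : PadicAlgCl c)‖ ‖(1 : PadicAlgCl c)‖ := by
    rw [sub_eq_add_neg, ← norm_neg (1 : PadicAlgCl c)]
    apply IsUltrametricDist.norm_add_eq_max_of_norm_ne_norm
    rw [norm_neg, norm_one]
    exact h1.ne
  rw [h2, norm_one, max_eq_right h1.le]

lemma norm_sum_le_one {α : Type} (s : Finset α) (f : α → PadicAlgCl c)
    (h : ∀ a ∈ s, ‖f a‖ ≤ 1) : ‖∑ a ∈ s, f a‖ ≤ 1 := by
  classical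
  induction s using Finset.induction_on with
  | empty => simp
  | insert a s ha ih =>
    rw [sum_insert ha]
    refine le_trans (IsUltrametricDist.norm_add_le_max _ _) (max_le (h a (mem_insert_self a s)) ?_)
    exact ih fun b hb => h b (mem_insert_of_mem hb)

lemma mulChar_norm_le {L : Type} [Field L] [Fintype L] (χ : MulChar L (PadicAlgCl c)) (y : L) :
    ‖χ y‖ ≤ 1 := by
  by_cases hy : y = 0
  · rw [hy, MulChar.map_zero, norm_zero]; exact zero_le_one
  · have h1 : χ y ^ (Fintype.card L - 1) = 1 := by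
      rw [← map_pow, FiniteField.pow_card_sub_one_eq_one y hy, map_one]
    have h2 : Fintype.card L - 1 ≠ 0 := by
      have := Fintype.one_lt_card (α := L)
      omega
    exact (norm_pow_one h2 h1).le

theorem est (hGD : GD) (hNG : NG) (hAX : AX) {N : ℕ} (hN : 2 ≤ N) (hc : N ∣ c - 1)
    (L : Type) [Field L] [Fintype L] [CharP L c] (T : MulChar L (PadicAlgCl c))
    (hT : IsT c N L T) (M : ℕ) (ι : Type) [Fintype ι] (l : ι → Fin M → L) (b : ι → ℕ)
    (hb : ∀ i, 1 ≤ b i ∧ b i < N) (r : ℕ) (hr : ∑ i, b i = r * N) :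
    ‖∑ x : Fin M → L, ∏ i, (T ^ b i) (∑ k, l i k * x k)‖
        * ‖((Fintype.card L : ℕ) : PadicAlgCl c)‖ ^ r
      ≤ ‖((Fintype.card L : ℕ) : PadicAlgCl c)‖ ^ M := by
  classical
  obtain ⟨ψ, hψ⟩ := hAX c L
  have hd := hGD L (PadicAlgCl c) M ι l (fun i => T ^ b i) ψ hψ
    (fun i => (hNG c N L hc hN T hT ψ hψ (b i) (hb i).1 (hb i).2).1)
  have hg : ‖∏ i, gaussSum (T ^ b i)⁻¹ ψ‖ = ‖((Fintype.card L : ℕ) : PadicAlgCl c)‖ ^ r := by
    rw [norm_prod]
    have h1 : ∀ i ∈ univ, ‖gaussSum (T ^ b i)⁻¹ ψ‖ = ‖gaussSum T⁻¹ ψ‖ ^ b i := fun i _ =>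
      (hNG c N L hc hN T hT ψ hψ (b i) (hb i).1 (hb i).2).2.1
    rw [prod_congr rfl h1, prod_pow_eq_pow_sum, hr, mul_comm, pow_mul,
      (hNG c N L hc hN T hT ψ hψ 1 le_rfl (by omega)).2.2]
  have h2 : ‖∑ t ∈ univ.filter (fun t : ι → L => ∀ k, ∑ i, t i * l i k = 0),
      ∏ i, (T ^ b i)⁻¹ (t i)‖ ≤ 1 := by
    apply norm_sum_le_one
    intro t _
    rw [norm_prod]
    exact prod_le_one (fun i _ => norm_nonneg _) fun i _ => mulChar_norm_le _ _
  have h3 := congrArg norm hd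
  rw [norm_mul, hg, norm_mul, norm_pow] at h3
  rw [mul_comm, h3]
  exact mul_le_of_le_one_right (pow_nonneg (norm_nonneg _) _) h2

end

end Pool.Agent.W528.HA
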