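import Pool.Agent.W528.HA.Est

/-!
# Sums of a character of order `N` over the affine space
-/

set_option autoImplicit false

namespace Pool.Agent.W528.HA

open Finset Polynomial

/-- The sum over the affine space `L ^ M` of the values at `F ^ ((|L| - 1) / N)`,
`F = ∏ l_i ^ a_i`, of the character `z ↦ μ` of the group of `N`-th roots of unity. -/
noncomputable def kummerSum (L : Type) [Field L] [Fintype L] (R : Type) [CommRing R]
    {ι : Type} [Fintype ι] (N M : ℕ) (l : ι → Fin M → L) (a : ι → ℕ) (z : L) (μ : R) : R :=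
  ∑ x : Fin M → L, kv N z μ ((∏ i, (∑ k, l i k * x k) ^ a i) ^ ((Fintype.card L - 1) / N))

lemma map_kv {L R R' : Type} [Field L] [CommRing R] [CommRing R'] (f : R →+* R') (N : ℕ) (z : L)
    (μ : R) (y : L) : f (kv N z μ y) = kv N z (f μ) y := by
  classical
  unfold kv
  rw [map_sum]
  refine sum_congr rfl fun k _ => ?_
  by_cases h : y = z ^ k
  · rw [if_pos h, if_pos h, map_pow]
  · rw [if_neg h, if_neg h, map_zero]

lemma map_kummerSum {L : Type} [Field L] [Fintype L] {R R' : Type} [CommRing R] [CommRing R']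
    {ι : Type} [Fintype ι] (f : R →+* R') (N M : ℕ) (l : ι → Fin M → L) (a : ι → ℕ) (z : L)
    (μ : R) : f (kummerSum L R N M l a z μ) = kummerSum L R' N M l a z (f μ) := by
  unfold kummerSum
  rw [map_sum]
  exact sum_congr rfl fun x _ => map_kv f N z μ _

section

variable {c : ℕ} [Fact c.Prime]

lemma pow_mod_char {L : Type} [Field L] [Fintype L] {R : Type} [CommRing R] (T : MulChar L R) {N : ℕ}
    (hT : T ^ N = 1) (n : ℕ) {y : L} (hy : y ≠ 0) : T y ^ n = T y ^ (n % N) := by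
  have h1 : T y ^ N = 1 := by
    have h2 : (T ^ N) y = (1 : MulChar L R) y := by rw [hT]
    rw [MulChar.one_apply (isUnit_iff_ne_zero.mpr hy)] at h2
    have h3 : (T ^ N) ((Units.mk0 y hy : Lˣ) : L) = T ((Units.mk0 y hy : Lˣ) : L) ^ N :=
      MulChar.pow_apply_coe T N (Units.mk0 y hy)
    rw [Units.val_mk0] at h3
    rw [← h3, h2]
  conv_lhs => rw [← Nat.div_add_mod n N, pow_add, pow_mul, h1, one_pow, one_mul]

lemma factor {L : Type} [Field L] [Fintype L] {R : Type} [CommRing R] (T : MulChar L R) {N : ℕ}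
    (hT : T ^ N = 1) {j a : ℕ} (hj : j.Coprime N) (ha : a < N) (y : L) :
    T (y ^ a) ^ j = if a = 0 then 1 else (T ^ ((j * a) % N)) y := by
  by_cases ha0 : a = 0
  · rw [if_pos ha0, ha0, pow_zero, map_one, one_pow]
  · rw [if_neg ha0]
    have hb : (j * a) % N ≠ 0 := by
      intro h
      have h1 : N ∣ j * a := Nat.dvd_of_mod_eq_zero h
      have h2 : N ∣ a := (Nat.Coprime.symm hj).dvd_of_dvd_mul_left h1
      exact absurd (Nat.le_of_dvd (Nat.pos_of_ne_zero ha0) h2) (by omega)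
    rw [MulChar.pow_apply' _ hb, map_pow, ← pow_mul, mul_comm a j]
    by_cases hy : y = 0
    · have hj0 : j * a ≠ 0 := by
        intro h
        apply hb
        rw [h, Nat.zero_mod]
      rw [hy, MulChar.map_zero, zero_pow hb, zero_pow hj0]
    · exact pow_mod_char T hT _ hy

theorem kum_eq {N : ℕ} (hN : 2 ≤ N) (L : Type) [Field L] [Fintype L] {R : Type} [CommRing R]
    (T : MulChar L R) (hT : T ^ N = 1) {z : L} {ω : R}
    (hTz : ∀ (b : ℕ) (y : L), 1 ≤ b → T y ^ b = kv N z (ω ^ b) (y ^ ((Fintype.card L - 1) / N)))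
    {ι : Type} [Fintype ι] (M : ℕ) (l : ι → Fin M → L) (a : ι → ℕ) (ha : ∀ i, a i < N)
    {j : ℕ} (hj : j.Coprime N) :
    kummerSum L R N M l a z (ω ^ j)
      = ∑ x : Fin M → L, ∏ i : {i // a i ≠ 0},
          (T ^ ((j * a i.1) % N)) (∑ k, l i.1 k * x k) := by
  classical
  have hj1 : 1 ≤ j := by
    rcases Nat.eq_zero_or_pos j with h | h
    · rw [h, Nat.coprime_zero_left] at hj
      omega
    · exact h
  unfold kummerSum
  refine sum_congr rfl fun x _ => ?_
  rw [← hTz j _ hj1, map_prod, ← prod_pow]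
  rw [prod_congr rfl fun i _ => factor T hT hj (ha i) (∑ k, l i k * x k)]
  rw [prod_ite, prod_const_one, one_mul]
  rw [← prod_subtype (univ.filter fun i => ¬ a i = 0) (p := fun i => a i ≠ 0)
    (by intro i; simp) (fun i => (T ^ ((j * a i) % N)) (∑ k, l i k * x k))]

theorem kum_est (hGD : GD) (hNG : NG) (hAX : AX) {N : ℕ} (hN : 2 ≤ N) (hc : N ∣ c - 1)
    (L : Type) [Field L] [Fintype L] [CharP L c] (T : MulChar L (PadicAlgCl c))
    (hT : IsT c N L T) {z : L} {ω : PadicAlgCl c}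
    (hTz : ∀ (b : ℕ) (y : L), 1 ≤ b → T y ^ b = kv N z (ω ^ b) (y ^ ((Fintype.card L - 1) / N)))
    {ι : Type} [Fintype ι] (d : ℕ) (l : ι → Fin (2 * d + 1) → L) (a : ι → ℕ) (ha : ∀ i, a i < N)
    (hsum : N ∣ ∑ i, a i) {j : ℕ} (hj : j.Coprime N) (hjd : ∑ i, (j * a i) % N ≤ d * N) :
    ‖kummerSum L (PadicAlgCl c) N (2 * d + 1) l a z (ω ^ j)‖
      ≤ ‖((Fintype.card L : ℕ) : PadicAlgCl c)‖ ^ (d + 1) := by
  classical
  rw [kum_eq hN L T hT.1 hTz (2 * d + 1) l a ha hj]
  -- the total exponent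
  have h1 : ∑ i : {i // a i ≠ 0}, (j * a i.1) % N = ∑ i, (j * a i) % N := by
    rw [← sum_subtype (univ.filter fun i => a i ≠ 0) (p := fun i => a i ≠ 0)
      (by intro i; simp) (fun i => (j * a i) % N)]
    rw [sum_filter]
    refine sum_congr rfl fun i _ => ?_
    by_cases h : a i = 0
    · rw [h, if_neg (by simp), mul_zero, Nat.zero_mod]
    · rw [if_pos h]
  have h2 : N ∣ ∑ i, (j * a i) % N := by
    have h3 : N ∣ ∑ i, j * a i := by
      rw [← mul_sum]
      exact hsum.mul_left j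
    rw [Nat.dvd_iff_mod_eq_zero] at h3 ⊢
    rw [← h3, sum_nat_mod univ N (fun i => j * a i)]
  obtain ⟨r, hr⟩ := h2
  have hr' : ∑ i : {i // a i ≠ 0}, (j * a i.1) % N = r * N := by
    rw [h1, hr, mul_comm]
  have hrd : r ≤ d := by
    have h4 : r * N ≤ d * N := by rw [mul_comm r N, ← hr]; exact hjd
    exact Nat.le_of_mul_le_mul_right h4 (by omega)
  have h5 := est (c := c) hGD hNG hAX hN hc L T hT (2 * d + 1) {i // a i ≠ 0}
    (fun i k => l i.1 k) (fun i => (j * a i.1) % N) (by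
      intro i
      refine ⟨?_, Nat.mod_lt _ (by omega)⟩
      rw [Nat.one_le_iff_ne_zero]
      intro h
      have h1 : N ∣ j * a i.1 := Nat.dvd_of_mod_eq_zero h
      have h2 : N ∣ a i.1 := (Nat.Coprime.symm hj).dvd_of_dvd_mul_left h1
      exact absurd (Nat.le_of_dvd (Nat.pos_of_ne_zero i.2) h2) (by have := ha i.1; omega)) r hr'
  have hq0 := norm_card_pos (c := c) (L := L)
  have hq1 := norm_card_lt (c := c) (L := L)
  have h6 : ‖((Fintype.card L : ℕ) : PadicAlgCl c)‖ ^ (2 * d + 1)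
      = ‖((Fintype.card L : ℕ) : PadicAlgCl c)‖ ^ (2 * d + 1 - r)
        * ‖((Fintype.card L : ℕ) : PadicAlgCl c)‖ ^ r := by
    rw [← pow_add]
    congr 1
    omega
  rw [h6] at h5
  have h7 := le_of_mul_le_mul_right h5 (pow_pos hq0 r)
  refine h7.trans ?_
  exact pow_le_pow_of_le_one hq0.le hq1.le (by omega)

end

end Pool.Agent.W528.HA
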