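import Pool.Agent.W528.HA.Kum

/-!
# The root of unity does not depend on the extension
-/

set_option autoImplicit false

namespace Pool.Agent.W528.HA

open Finset Polynomial

lemma dvd_card_sub_one {c : ℕ} [Fact c.Prime] {N : ℕ} (hc : N ∣ c - 1) (L : Type) [Field L]
    [Fintype L] [CharP L c] : N ∣ Fintype.card L - 1 := by
  obtain ⟨n, _, hn⟩ := FiniteField.card L c
  rw [hn]
  exact hc.trans (by simpa using Nat.sub_dvd_pow_sub_pow c 1 (n : ℕ))

lemma exists_pow_eq {c : ℕ} [Fact c.Prime] {N : ℕ} (hc : N ∣ c - 1) (hN : 2 ≤ N) (L : Type)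
    [Field L] [Fintype L] [CharP L c] {z : L} (hz : z ^ N = 1) :
    ∃ y : L, y ≠ 0 ∧ y ^ ((Fintype.card L - 1) / N) = z := by
  classical
  have hz0 : z ≠ 0 := by
    rintro rfl
    rw [zero_pow (by omega)] at hz
    exact zero_ne_one hz
  obtain ⟨g, hg⟩ := IsCyclic.exists_generator (α := Lˣ)
  obtain ⟨k, hk⟩ := (IsOfFinOrder.mem_powers_iff_mem_zpowers (isOfFinOrder_of_finite g)).mpr
    (hg (Units.mk0 z hz0))
  simp only at hk
  have hd := dvd_card_sub_one hc L
  obtain ⟨u, hu⟩ := hd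
  have hord : orderOf g = Fintype.card L - 1 := by
    rw [orderOf_eq_card_of_forall_mem_zpowers hg, Nat.card_eq_fintype_card, Fintype.card_units]
  have h1 : g ^ (k * N) = 1 := by
    rw [pow_mul, hk]
    ext
    push_cast
    exact hz
  have h2 : N * u ∣ k * N := by
    rw [← hu, ← hord]
    exact orderOf_dvd_of_pow_eq_one h1
  have h3 : u ∣ k := by
    rw [mul_comm k N] at h2
    exact Nat.dvd_of_mul_dvd_mul_left (by omega) h2
  obtain ⟨k', rfl⟩ := h3
  refine ⟨((g ^ k' : Lˣ) : L), Units.ne_zero _, ?_⟩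
  have hN0 : N ≠ 0 := by omega
  rw [hu, Nat.mul_div_cancel_left u (by omega), ← Units.val_pow_eq_pow_val, ← pow_mul, mul_comm k' u,
    hk, Units.val_mk0]

lemma root_unique {c : ℕ} [Fact c.Prime] {N : ℕ} (hc : N ∣ c - 1) (hN : 2 ≤ N) {w w' : ℤ_[c]}
    (h : w ^ N = 1) (h' : w' ^ N = 1) (hw : PadicInt.toZMod w = PadicInt.toZMod w') : w = w' := by
  have h1 := (Commute.all w w').geom_sum₂_mul N
  rw [h, h', sub_self, mul_eq_zero] at h1
  rcases h1 with h1 | h1
  · exfalso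
    have h2 := congrArg (PadicInt.toZMod (p := c)) h1
    rw [map_sum, map_zero] at h2
    have h3 : ∀ i ∈ range N, PadicInt.toZMod (w ^ i * w' ^ (N - 1 - i))
        = PadicInt.toZMod w ^ (N - 1) := by
      intro i hi
      rw [mem_range] at hi
      rw [map_mul, map_pow, map_pow, ← hw, ← pow_add]
      congr 1
      omega
    rw [sum_congr rfl h3, sum_const, card_range, nsmul_eq_mul, mul_eq_zero] at h2
    rcases h2 with h2 | h2
    · rw [ZMod.natCast_eq_zero_iff] at h2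
      have h4 : 2 ≤ c := (Fact.out : c.Prime).two_le
      have h5 := Nat.le_of_dvd (by omega) h2
      have h6 := Nat.le_of_dvd (by omega) hc
      omega
    · have h4 : PadicInt.toZMod w ^ N = 1 := by rw [← map_pow, h, map_one]
      have h5 : PadicInt.toZMod w = 0 := by
        exact (pow_eq_zero_iff (by omega)).mp h2
      rw [h5, zero_pow (by omega)] at h4
      exact zero_ne_one h4
  · exact sub_eq_zero.mp h1

/-- The lift of the root of unity. -/
lemma lift_of {c : ℕ} [Fact c.Prime] {N : ℕ} (hc : N ∣ c - 1) (hN : 2 ≤ N) (L : Type)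
    [Field L] [Fintype L] [CharP L c] {z : L} (hz : IsPrimitiveRoot z N) {ω : PadicAlgCl c}
    (hω : ω ^ N = 1) (T : MulChar L (PadicAlgCl c)) (hT : IsT c N L T)
    (hTz : ∀ (b : ℕ) (y : L), 1 ≤ b → T y ^ b = kv N z (ω ^ b) (y ^ ((Fintype.card L - 1) / N))) :
    ∃ w : ℤ_[c], w ^ N = 1 ∧ algebraMap ℚ_[c] (PadicAlgCl c) (w : ℚ_[c]) = ω ∧
      ZMod.castHom (dvd_refl c) L (PadicInt.toZMod w) = z := by
  classical
  obtain ⟨y, hy0, hy⟩ := exists_pow_eq hc hN L hz.pow_eq_one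
  obtain ⟨w, hw, hwz⟩ := hT.2 y hy0
  have h1 := hTz 1 y le_rfl
  rw [pow_one, pow_one, hy] at h1
  have h2 : kv N z ω z = ω := by
    unfold kv
    rw [sum_eq_single 1]
    · rw [pow_one, if_pos rfl, pow_one]
    · intro k hk hk1
      rw [mem_range] at hk
      rw [if_neg]
      intro h
      apply hk1
      apply hz.pow_inj hk (by omega)
      rw [pow_one]
      exact h.symm
    · intro h
      exact absurd (mem_range.mpr (by omega)) h
  rw [h2] at h1
  rw [h1] at hw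
  rw [hy] at hwz
  refine ⟨w, ?_, hw, hwz⟩
  have h3 : algebraMap ℚ_[c] (PadicAlgCl c) ((w ^ N : ℤ_[c]) : ℚ_[c]) = 1 := by
    rw [PadicInt.coe_pow, map_pow, hw, hω]
  have h4 : ((w ^ N : ℤ_[c]) : ℚ_[c]) = 1 := by
    apply (algebraMap ℚ_[c] (PadicAlgCl c)).injective
    rw [h3, map_one]
  exact PadicInt.ext (by rw [h4, PadicInt.coe_one])

lemma omega_unique (hTX : TX) {c : ℕ} [Fact c.Prime] {N : ℕ} (hc : N ∣ c - 1) (hN : 2 ≤ N)
    (κ : Type) [Field κ] [Fintype κ] [CharP κ c] {z : κ} (hz : IsPrimitiveRoot z N) :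
    ∃ ω : PadicAlgCl c, IsPrimitiveRoot ω N ∧ ∀ (L : Type) [Field L] [Fintype L] [Algebra κ L]
      [CharP L c], ∃ T : MulChar L (PadicAlgCl c), IsT c N L T ∧
      ∀ (b : ℕ) (y : L), 1 ≤ b →
        T y ^ b = kv N (algebraMap κ L z) (ω ^ b) (y ^ ((Fintype.card L - 1) / N)) := by
  classical
  obtain ⟨ω, T, hω, hT, hTz⟩ := hTX c N κ hc hN z hz
  refine ⟨ω, hω, ?_⟩
  intro L _ _ _ _
  have hzL : IsPrimitiveRoot (algebraMap κ L z) N :=
    hz.map_of_injective (algebraMap κ L).injective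
  obtain ⟨ω', T', hω', hT', hTz'⟩ := hTX c N L hc hN _ hzL
  obtain ⟨w, hw1, hw2, hw3⟩ := lift_of hc hN κ hz hω.pow_eq_one T hT hTz
  obtain ⟨w', hw1', hw2', hw3'⟩ := lift_of hc hN L hzL hω'.pow_eq_one T' hT' hTz'
  have h1 : PadicInt.toZMod w' = PadicInt.toZMod w := by
    apply (ZMod.castHom (dvd_refl c) L).injective
    rw [hw3', ← hw3]
    have h2 : ((algebraMap κ L).comp (ZMod.castHom (dvd_refl c) κ)) = ZMod.castHom (dvd_refl c) L :=
      Subsingleton.elim _ _
    rw [← h2]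
    rfl
  have h3 : w' = w := root_unique hc hN hw1' hw1 h1
  have h4 : ω' = ω := by rw [← hw2', ← hw2, h3]
  rw [h4] at hTz'
  exact ⟨T', hT', hTz'⟩

end Pool.Agent.W528.HA
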