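import Pool.Agent.W528.HA.Lift

/-!
# No root of unity is an eigenvalue of Frobenius
-/

set_option autoImplicit false

namespace Pool.Agent.W528.HA

open Finset Polynomial

/-- The traces of the powers of `A` are given by the sums over the arrangement. -/
def TraceFormula (κ : Type) [Field κ] [Fintype κ] {ι : Type} [Fintype ι] (N d : ℕ)
    (l : ι → Fin (2 * d + 1) → κ) (a : ι → ℕ) (z : κ) {E V : Type} [Field E] [AddCommGroup V]
    [Module E V] (μ : E) (A : Module.End E V) : Prop :=
  ∀ (L : Type) [Field L] [Fintype L] [Algebra κ L],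
    ((Fintype.card L : E) - 1) * (Fintype.card L : E) ^ d
        * LinearMap.trace E V (A ^ Module.finrank κ L)
      = kummerSum L E N (2 * d + 1) (fun i k => algebraMap κ L (l i k)) a (algebraMap κ L z) μ

theorem no_root (hGD : GD) (hNG : NG) (hAX : AX) (hTX : TX) (hTE : TE) (hAL : AL) (hBD : BD)
    (hEM : EM) {c : ℕ} [Fact c.Prime] {N : ℕ} (hN : 2 ≤ N) (hc : N ∣ c - 1)
    (κ : Type) [Field κ] [Fintype κ] [CharP κ c] {ι : Type} [Fintype ι] (d : ℕ)
    (l : ι → Fin (2 * d + 1) → κ) (a : ι → ℕ) (ha : ∀ i, a i < N) (hsum : N ∣ ∑ i, a i)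
    {j : ℕ} (hj : j.Coprime N) (hjd : ∑ i, (j * a i) % N ≤ d * N)
    {z : κ} (hz : IsPrimitiveRoot z N) {E V : Type} [Field E] [CharZero E] [IsAlgClosed E]
    [AddCommGroup V] [Module E V] [FiniteDimensional E V] {μ : E} (hμ : IsPrimitiveRoot μ N)
    (A : Module.End E V) (hA : TraceFormula κ N d l a z μ A) (m : ℕ) (hm : 0 < m) (v : V)
    (hv : (A ^ m) v = v) : v = 0 := by
  classical
  by_contra hv0
  -- an eigenvalue which is a root of unity
  obtain ⟨e, he, hem⟩ : ∃ e : E, Module.End.HasEigenvalue A e ∧ e ^ m = 1 := by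
    have h1 : Module.End.HasEigenvalue (A ^ m) (1 : E) :=
      Module.End.hasEigenvalue_of_hasEigenvector (x := v)
        ⟨by rw [Module.End.mem_eigenspace_iff, one_smul, hv], hv0⟩
    have h2 : (1 : E) ∈ spectrum E (A ^ m) := Module.End.hasEigenvalue_iff_mem_spectrum.mp h1
    rw [spectrum.map_pow_of_pos A hm] at h2
    obtain ⟨e, he, hem⟩ := h2
    exact ⟨e, Module.End.hasEigenvalue_iff_mem_spectrum.mpr he, hem⟩
  have he0 : e ≠ 0 := by
    rintro rfl
    rw [zero_pow (by omega)] at hem
    exact zero_ne_one hem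
  obtain ⟨S, mult, hS, hSe, htr⟩ := hTE E V A
  have heS := hSe e he0 he
  -- finite extensions
  have hq1 : ‖((Fintype.card κ : ℕ) : PadicAlgCl c)‖ < 1 := norm_card_lt (c := c) (L := κ)
  -- the field of values
  have hμalg : IsAlgebraic ℚ μ := by
    have h1 : IsIntegral ℤ μ := hμ.isIntegral (by omega)
    exact (h1.tower_top (A := ℚ)).isAlgebraic
  have hext : ∀ n, 1 ≤ n → ∃ (L : Type) (_ : Field L) (_ : Fintype L) (_ : Algebra κ L),
      Module.finrank κ L = n := by
    intro n hn
    have : NeZero n := ⟨by omega⟩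
    let _ : Fintype (FiniteField.Extension κ c n) := Fintype.ofFinite _
    exact ⟨FiniteField.Extension κ c n, inferInstance, inferInstance, inferInstance,
      FiniteField.finrank_extension κ c n⟩
  have hpoly : ∀ n, 1 ≤ n → ∃ g : ℚ[X], aeval μ g = ∑ a ∈ S, (mult a : E) * a ^ n := by
    intro n hn
    obtain ⟨L, _, _, _, hL⟩ := hext n hn
    have h1 := hA L
    rw [hL, htr n hn] at h1
    have hQ : (Fintype.card L : ℕ) ≠ 0 := Fintype.card_ne_zero
    have hQ1 := Fintype.one_lt_card (α := L)
    set Q : ℕ := Fintype.card L with hQdef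
    refine ⟨C ((((Q : ℚ) - 1) * (Q : ℚ) ^ d)⁻¹)
      * kummerSum L ℚ[X] N (2 * d + 1) (fun i k => algebraMap κ L (l i k)) a
        (algebraMap κ L z) X, ?_⟩
    rw [map_mul, aeval_C]
    have h2 : aeval μ (kummerSum L ℚ[X] N (2 * d + 1) (fun i k => algebraMap κ L (l i k)) a
        (algebraMap κ L z) X)
        = kummerSum L E N (2 * d + 1) (fun i k => algebraMap κ L (l i k)) a
          (algebraMap κ L z) μ := by
      have h3 := map_kummerSum ((aeval μ : ℚ[X] →ₐ[ℚ] E) : ℚ[X] →+* E) N (2 * d + 1)
        (fun i k => algebraMap κ L (l i k)) a (algebraMap κ L z) X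
      rw [RingHom.coe_coe, aeval_X] at h3
      exact h3
    rw [h2, ← h1]
    rw [map_inv₀, map_mul, map_sub, map_pow, map_natCast, map_one]
    have h4 : ((Q : E) - 1) ≠ 0 := by
      rw [sub_ne_zero]
      exact_mod_cast hQ1.ne'
    have h5 : (Q : E) ^ d ≠ 0 := pow_ne_zero _ (by exact_mod_cast hQ)
    field_simp
  have halg := hAL E μ hμalg S mult hS hpoly
  -- the embedding
  obtain ⟨ω, hω, hωL⟩ := omega_unique hTX hc hN κ hz
  have hωj : IsPrimitiveRoot (ω ^ j) N := hω.pow_of_coprime j hj
  obtain ⟨f, hf⟩ := hEM E (PadicAlgCl c) N μ (ω ^ j) (by omega) hμ hωj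
  have hμK : μ ∈ algebraicClosure ℚ E := (mem_algebraicClosure_iff).mpr hμalg
  set μK : algebraicClosure ℚ E := ⟨μ, hμK⟩ with hμKdef
  have hfμ : f μK = ω ^ j := hf μK rfl
  set g : E → PadicAlgCl c := fun x => if h : x ∈ algebraicClosure ℚ E then f ⟨x, h⟩ else 0
    with hgdef
  have hmem : ∀ x ∈ S, x ∈ algebraicClosure ℚ E := fun x hx =>
    (mem_algebraicClosure_iff).mpr (halg x hx)
  have hg : ∀ (x : E) (hx : x ∈ algebraicClosure ℚ E), g x = f ⟨x, hx⟩ := by
    intro x hx
    simp only [hgdef]
    rw [dif_pos hx]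
  have hinj : Set.InjOn g (S : Set E) := by
    intro x hx y hy hxy
    rw [hg x (hmem x hx), hg y (hmem y hy)] at hxy
    have := f.injective hxy
    exact congrArg Subtype.val this
  -- the bound
  have hbound : ∀ n, 1 ≤ n → ‖∑ x ∈ S, (mult x : PadicAlgCl c) * g x ^ n‖
      ≤ ‖((Fintype.card κ : ℕ) : PadicAlgCl c)‖ ^ n := by
    intro n hn
    obtain ⟨L, _, _, _, hL⟩ := hext n hn
    have : CharP L c := charP_of_injective_algebraMap (algebraMap κ L).injective c
    obtain ⟨T, hT, hTz⟩ := hωL L
    have h1 := hA L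
    rw [hL, htr n hn] at h1
    have hest := kum_est (c := c) hGD hNG hAX hN hc L T hT hTz d
      (fun i k => algebraMap κ L (l i k)) a ha hsum hj hjd
    -- the equation in the field of algebraic numbers
    have h2 : (((Fintype.card L : ℕ) : algebraicClosure ℚ E) - 1)
        * ((Fintype.card L : ℕ) : algebraicClosure ℚ E) ^ d
        * ∑ x ∈ S.attach, ((mult x.1 : ℕ) : algebraicClosure ℚ E)
          * (⟨x.1, hmem x.1 x.2⟩ : algebraicClosure ℚ E) ^ n
        = kummerSum L (algebraicClosure ℚ E) N (2 * d + 1)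
          (fun i k => algebraMap κ L (l i k)) a (algebraMap κ L z) μK := by
      apply (algebraMap (algebraicClosure ℚ E) E).injective
      rw [map_kummerSum]
      rw [map_mul, map_mul, map_sub, map_one, map_pow, map_natCast, map_sum]
      have h3 : ∑ x ∈ S.attach, algebraMap (algebraicClosure ℚ E) E
          (((mult x.1 : ℕ) : algebraicClosure ℚ E)
          * (⟨x.1, hmem x.1 x.2⟩ : algebraicClosure ℚ E) ^ n)
          = ∑ x ∈ S, (mult x : E) * x ^ n := by
        rw [← sum_attach S]
        refine sum_congr rfl fun x _ => ?_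
        rw [map_mul, map_pow, map_natCast]
        rfl
      rw [h3, h1]
      rfl
    have h4 := congrArg f h2
    rw [map_kummerSum, hfμ, map_mul, map_mul, map_sub, map_one, map_pow, map_natCast,
      map_sum] at h4
    have h5 : ∑ x ∈ S.attach, f (((mult x.1 : ℕ) : algebraicClosure ℚ E)
          * (⟨x.1, hmem x.1 x.2⟩ : algebraicClosure ℚ E) ^ n)
        = ∑ x ∈ S, (mult x : PadicAlgCl c) * g x ^ n := by
      rw [← sum_attach S]
      refine sum_congr rfl fun x _ => ?_
      rw [map_mul, map_pow, map_natCast, hg x.1 (hmem x.1 x.2)]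
    rw [h5] at h4
    have h6 := congrArg norm h4
    rw [norm_mul, norm_mul, norm_pow, norm_card_sub_one, one_mul] at h6
    rw [← h6, pow_succ] at hest
    have hq0 := norm_card_pos (c := c) (L := L)
    have h7 := le_of_mul_le_mul_left hest (pow_pos hq0 d)
    refine h7.trans ?_
    have h8 : Fintype.card L = Fintype.card κ ^ n := by
      rw [← hL]
      exact Module.card_eq_pow_finrank
    rw [h8]
    push_cast
    rw [norm_pow]
  -- apply the boundedness lemma
  have hfin := hBD (PadicAlgCl c) (S.image g) (fun y => ∑ x ∈ S with g x = y, mult x)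
    ‖((Fintype.card κ : ℕ) : PadicAlgCl c)‖ (norm_nonneg _) (by
      intro y hy
      obtain ⟨x, hx, rfl⟩ := mem_image.mp hy
      refine ⟨?_, ?_⟩
      · rw [hg x (hmem x hx)]
        intro h
        have h1 : (⟨x, hmem x hx⟩ : algebraicClosure ℚ E) = 0 := by
          apply f.injective
          rw [h, map_zero]
        exact (hS x hx).1 (congrArg Subtype.val h1)
      · apply sum_pos (fun x hx => (hS x (mem_filter.mp hx).1).2)
        exact ⟨x, mem_filter.mpr ⟨hx, rfl⟩⟩) (by
      intro n hn
      have h1 : ∑ y ∈ S.image g, ((∑ x ∈ S with g x = y, mult x : ℕ) : PadicAlgCl c) * y ^ n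
          = ∑ x ∈ S, (mult x : PadicAlgCl c) * g x ^ n := by
        rw [sum_image hinj]
        refine sum_congr rfl fun x hx => ?_
        have h2 : (S.filter fun x' => g x' = g x) = {x} := by
          ext x'
          rw [mem_filter, mem_singleton]
          constructor
          · rintro ⟨h3, h4⟩
            exact hinj h3 hx h4
          · rintro rfl
            exact ⟨hx, rfl⟩
        rw [h2, sum_singleton]
      rw [h1]
      exact hbound n hn) (g e) (mem_image_of_mem g heS)
  have hge : g e ^ m = 1 := by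
    rw [hg e (hmem e heS), ← map_pow]
    have : (⟨e, hmem e heS⟩ : algebraicClosure ℚ E) ^ m = 1 := by
      apply Subtype.ext
      exact hem
    rw [this, map_one]
  have hge1 := norm_pow_one (by omega) hge
  rw [hge1] at hfin
  exact absurd hfin (not_le.mpr hq1)

end Pool.Agent.W528.HA
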