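import Mathlib

/-!
# Character sums over hyperplane arrangements: statements of the parts
-/

set_option autoImplicit false

namespace Pool.Agent.W528.HA

open Finset Polynomial

/-- Duality of sums over linear forms, by Gauss sums. -/
def GD : Prop :=
  ∀ (L C : Type) [Field L] [Fintype L] [DecidableEq L] [Field C] (M : ℕ) (ι : Type) [Fintype ι]
    [DecidableEq ι] (l : ι → Fin M → L) (χ : ι → MulChar L C) (ψ : AddChar L C),
    ψ.IsPrimitive → (∀ i, χ i ≠ 1) →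
    (∏ i, gaussSum (χ i)⁻¹ ψ) * ∑ x : Fin M → L, ∏ i, χ i (∑ k, l i k * x k)
      = (Fintype.card L : C) ^ M
        * ∑ t ∈ univ.filter (fun t : ι → L => ∀ k, ∑ i, t i * l i k = 0), ∏ i, (χ i)⁻¹ (t i)

/-- A Jacobi sum is not zero in characteristic `c`. -/
def JU : Prop :=
  ∀ (c N : ℕ) [Fact c.Prime] (L : Type) [Field L] [Fintype L] [CharP L c], N ∣ c - 1 →
    ∀ b : ℕ, 1 ≤ b → b + 1 < N →
      ∑ x : L, x ^ (Fintype.card L - 1 - (Fintype.card L - 1) / N)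
        * (1 - x) ^ (Fintype.card L - 1 - b * ((Fintype.card L - 1) / N)) ≠ 0

/-- `T` is a character of order dividing `N` with values in `ℤ_c`, and
`T(y) = y ^ ((|L| - 1) / N)` modulo `c`. -/
def IsT (c N : ℕ) [Fact c.Prime] (L : Type) [Field L] [Fintype L] [CharP L c]
    (T : MulChar L (PadicAlgCl c)) : Prop :=
  T ^ N = 1 ∧ ∀ y : L, y ≠ 0 → ∃ w : ℤ_[c],
    algebraMap ℚ_[c] (PadicAlgCl c) (w : ℚ_[c]) = T y ∧
    ZMod.castHom (dvd_refl c) L (PadicInt.toZMod w) = y ^ ((Fintype.card L - 1) / N)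

/-- The absolute values of Gauss sums. -/
def NG : Prop :=
  ∀ (c N : ℕ) [Fact c.Prime] (L : Type) [Field L] [Fintype L] [CharP L c], N ∣ c - 1 → 2 ≤ N →
    ∀ (T : MulChar L (PadicAlgCl c)), IsT c N L T →
    ∀ (ψ : AddChar L (PadicAlgCl c)), ψ.IsPrimitive → ∀ b : ℕ, 1 ≤ b → b < N →
      T ^ b ≠ 1 ∧
      ‖gaussSum (T ^ b)⁻¹ ψ‖ = ‖gaussSum T⁻¹ ψ‖ ^ b ∧
      ‖gaussSum T⁻¹ ψ‖ ^ N = ‖((Fintype.card L : ℕ) : PadicAlgCl c)‖

/-- `Σ_{k < N} [y = z ^ k] μ ^ k`: the value at `y` of the character of the group generated by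
the primitive `N`-th root of unity `z` with `z ↦ μ` (and `0` outside of the group). -/
noncomputable def kv {L R : Type} [Field L] [CommRing R] (N : ℕ) (z : L) (μ : R) (y : L) : R :=
  by classical exact ∑ k ∈ range N, if y = z ^ k then μ ^ k else 0

/-- Existence of the character `T`. -/
def TX : Prop :=
  ∀ (c N : ℕ) [Fact c.Prime] (L : Type) [Field L] [Fintype L] [CharP L c], N ∣ c - 1 → 2 ≤ N →
    ∀ z : L, IsPrimitiveRoot z N → ∃ (ω : PadicAlgCl c) (T : MulChar L (PadicAlgCl c)),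
      IsPrimitiveRoot ω N ∧ IsT c N L T ∧
      ∀ (b : ℕ) (y : L), 1 ≤ b → T y ^ b = kv N z (ω ^ b) (y ^ ((Fintype.card L - 1) / N))

/-- A primitive additive character with values in `PadicAlgCl c`. -/
def AX : Prop :=
  ∀ (c : ℕ) [Fact c.Prime] (L : Type) [Field L] [Fintype L] [CharP L c],
    ∃ ψ : AddChar L (PadicAlgCl c), ψ.IsPrimitive

/-- Traces of powers in terms of the nonzero eigenvalues. -/
def TE : Prop :=
  ∀ (E : Type) [Field E] [IsAlgClosed E] (V : Type) [AddCommGroup V] [Module E V]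
    [FiniteDimensional E V] (φ : Module.End E V),
    ∃ (S : Finset E) (m : E → ℕ), (∀ a ∈ S, a ≠ 0 ∧ 0 < m a) ∧
      (∀ a, a ≠ 0 → Module.End.HasEigenvalue φ a → a ∈ S) ∧
      ∀ n, 1 ≤ n → LinearMap.trace E V (φ ^ n) = ∑ a ∈ S, (m a : E) * a ^ n

/-- An exponential sum whose values for `n ≥ 1` lie in the field `ℚ(μ)` has algebraic nonzero
exponents. -/
def AL : Prop :=
  ∀ (E : Type) [Field E] [CharZero E] (μ : E), IsAlgebraic ℚ μ → ∀ (S : Finset E) (m : E → ℕ),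
    (∀ a ∈ S, a ≠ 0 ∧ 0 < m a) → (∀ n, 1 ≤ n → ∃ g : ℚ[X], aeval μ g = ∑ a ∈ S, (m a : E) * a ^ n) →
    ∀ a ∈ S, IsAlgebraic ℚ a

/-- An exponential sum with `‖Σ m_a a ^ n‖ ≤ ρ ^ n` for `n ≥ 1` has all `‖a‖ ≤ ρ`. -/
def BD : Prop :=
  ∀ (C : Type) [NormedField C] [CharZero C] (S : Finset C) (m : C → ℕ) (ρ : ℝ), 0 ≤ ρ →
    (∀ a ∈ S, a ≠ 0 ∧ 0 < m a) → (∀ n, 1 ≤ n → ‖∑ a ∈ S, (m a : C) * a ^ n‖ ≤ ρ ^ n) →
    ∀ a ∈ S, ‖a‖ ≤ ρ

/-- Embeddings of the algebraic numbers with a given value. -/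
def EM : Prop :=
  ∀ (E C : Type) [Field E] [CharZero E] [IsAlgClosed E] [Field C] [CharZero C] [IsAlgClosed C]
    (N : ℕ) (μ : E) (ω : C), 0 < N → IsPrimitiveRoot μ N → IsPrimitiveRoot ω N →
    ∃ f : (algebraicClosure ℚ E) →+* C, ∀ x : algebraicClosure ℚ E, (x : E) = μ → f x = ω

end Pool.Agent.W528.HA
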